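import Pool.Agent.Helper87.NC.Min

/-!
# Nested chains of exchanges
-/

namespace Pool.Agent.Helper87.NC

open Set

variable {α : Type*} {M : Matroid α} {k : ℕ} {K D : ZMod k → Set α} {n : ℕ}

/-- the integers of the residue class `a` in the interval `[s, s + k t)` -/
noncomputable def J (k : ℕ) (a : ZMod k) (s : ℤ) (t : ℕ) : Finset ℤ := by
  classical exact (Finset.Ico s (s + k * t)).filter (fun i : ℤ => (i : ZMod k) = a)

lemma mem_J {a : ZMod k} {s : ℤ} {t : ℕ} {i : ℤ} :
    i ∈ J k a s t ↔ (s ≤ i ∧ i < s + k * t) ∧ (i : ZMod k) = a := by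
  classical
  unfold J
  simp [Finset.mem_filter, Finset.mem_Ico]

lemma J_zero (a : ZMod k) (s : ℤ) : J k a s 0 = ∅ := by
  ext i
  simp only [mem_J, Finset.notMem_empty, iff_false, not_and]
  intro h
  simp at h
  omega

lemma card_J [NeZero k] (a : ZMod k) (s : ℤ) (t : ℕ) : (J k a s t).card = t := by
  classical
  have hk : (0 : ℤ) < k := by exact_mod_cast Nat.pos_of_ne_zero (NeZero.ne k)
  have h1 : J k a s t = (Finset.Ico s (s + k * t)).filter (fun i : ℤ => i ≡ (a.val : ℤ) [ZMOD k]) := by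
    ext i
    rw [mem_J, Finset.mem_filter, Finset.mem_Ico, ← ZMod.intCast_eq_intCast_iff]
    simp
  rw [h1]
  have h2 := Int.Ico_filter_modEq_card s (s + k * t) hk (a.val : ℤ)
  have hkq : (k : ℚ) ≠ 0 := by exact_mod_cast NeZero.ne k
  have h3 : (((s + k * t : ℤ) : ℚ) - ((a.val : ℤ) : ℚ)) / ((k : ℤ) : ℚ)
      = ((s : ℚ) - ((a.val : ℤ) : ℚ)) / ((k : ℤ) : ℚ) + ((t : ℤ) : ℚ) := by
    push_cast
    field_simp
    ring
  rw [h3, Int.ceil_add_intCast] at h2
  have h4 : (((Finset.Ico s (s + k * t)).filter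
      (fun i : ℤ => i ≡ (a.val : ℤ) [ZMOD k])).card : ℤ) = t := by
    rw [h2, add_sub_cancel_left]
    exact max_eq_left (by positivity)
  exact_mod_cast h4

lemma shift_J {a : ZMod k} {s : ℤ} {t : ℕ} (hne : a + 1 ≠ (s : ZMod k)) (c : ℤ → α) :
    (fun i => c (i + 1)) '' (J k a s t : Set ℤ) = c '' (J k (a + 1) s t : Set ℤ) := by
  ext x
  constructor
  · rintro ⟨i, hi, rfl⟩
    rw [Finset.mem_coe, mem_J] at hi
    obtain ⟨⟨h1, h2⟩, h3⟩ := hi
    refine ⟨i + 1, ?_, rfl⟩
    rw [Finset.mem_coe, mem_J]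
    refine ⟨⟨by omega, ?_⟩, by push_cast; rw [h3]⟩
    by_contra hcon
    have h4 : i + 1 = s + k * t := by omega
    apply hne
    have h5 : ((i + 1 : ℤ) : ZMod k) = ((s + k * t : ℤ) : ZMod k) := by rw [h4]
    push_cast at h5
    rw [h3] at h5
    simpa using h5
  · rintro ⟨i, hi, rfl⟩
    rw [Finset.mem_coe, mem_J] at hi
    obtain ⟨⟨h1, h2⟩, h3⟩ := hi
    refine ⟨i - 1, ?_, by simp⟩
    rw [Finset.mem_coe, mem_J]
    refine ⟨⟨?_, by omega⟩, by push_cast; rw [h3]; ring⟩
    by_contra hcon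
    have h4 : i = s := by omega
    apply hne
    rw [← h3, h4]

lemma J_sub_shift {a : ZMod k} {s : ℤ} {t : ℕ} (c : ℤ → α) :
    c '' (J k (a + 1) s t : Set ℤ) \ {c s} ⊆ (fun i => c (i + 1)) '' (J k a s t : Set ℤ) := by
  rintro _ ⟨⟨i, hi, rfl⟩, hne⟩
  rw [Finset.mem_coe, mem_J] at hi
  obtain ⟨⟨h1, h2⟩, h3⟩ := hi
  have h4 : i ≠ s := by
    rintro rfl
    exact hne rfl
  refine ⟨i - 1, ?_, by simp⟩
  rw [Finset.mem_coe, mem_J]
  exact ⟨⟨by omega, by omega⟩, by push_cast; rw [h3]; ring⟩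

lemma J_mono {a : ZMod k} {s s' : ℤ} {t : ℕ} (h1 : s' ≤ s) (h2 : s ≤ s' + k) :
    J k a s t ⊆ J k a s' (t + 1) := by
  intro i hi
  rw [mem_J] at hi ⊢
  refine ⟨⟨by omega, ?_⟩, hi.2⟩
  have := hi.1.2
  push_cast
  have h3 : s' + (k : ℤ) * (t + 1) = s' + k + k * t := by ring
  rw [h3]
  omega

section walk

variable {m d : ℕ} {c : ℤ → α}

lemma IsWalk.per_mul (hc : IsWalk M K D m c) (q : ℤ) : ∀ x : ℤ, c (x + m * q) = c x := by
  induction q using Int.induction_on with
  | zero => intro x; simp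
  | succ q ih =>
    intro x
    have : x + (m : ℤ) * (q + 1) = (x + m * q) + m := by ring
    rw [this, hc.per, ih]
  | pred q ih =>
    intro x
    have h1 := hc.per (x + (m : ℤ) * (-q - 1))
    have : x + (m : ℤ) * (-q - 1) + m = x + m * (-q) := by ring
    rw [this] at h1
    rw [← h1, ih]

lemma IsMin.window (hmd : m = k * d) {a : ZMod k} {s : ℤ} {t : ℕ} (ht : t ≤ d) :
    ∀ i ∈ J k a s t, ∀ j ∈ J k a s t, |i - j| < (m : ℤ) := by
  intro i hi j hj
  rw [mem_J] at hi hj
  have h1 : (k : ℤ) * t ≤ m := by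
    rw [hmd]
    push_cast
    exact mul_le_mul_of_nonneg_left (by exact_mod_cast ht) (by positivity)
  rw [abs_lt]
  constructor <;> omega

lemma IsMin.image_J_subset (hc : IsMin M K D m c) (a : ZMod k) (s : ℤ) (t : ℕ) :
    c '' (J k a s t : Set ℤ) ⊆ D a := by
  rintro _ ⟨i, hi, rfl⟩
  rw [Finset.mem_coe, mem_J] at hi
  rw [← hi.2]
  exact hc.mem i

lemma IsMin.card_image_J [NeZero k] (h : State M K D n) (hc : IsMin M K D m c) (hmd : m = k * d)
    (a : ZMod k) (s : ℤ) {t : ℕ} (ht : t ≤ d) : (c '' (J k a s t : Set ℤ)).ncard = t := by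
  rw [ncard_image_of_injOn, ncard_coe_finset, card_J]
  intro i hi j hj hij
  exact hc.inj' h (IsMin.window hmd ht i hi j hj) hij

lemma IsMin.image_J_full (h : State M K D n) (hc : IsMin M K D m c) (hmd : m = k * d)
    (a : ZMod k) (s : ℤ) : c '' (J k a s d : Set ℤ) = D a ∩ range c := by
  apply subset_antisymm
  · exact subset_inter (hc.image_J_subset a s d) (image_subset_range _ _)
  · rintro _ ⟨hD, ⟨i, rfl⟩⟩
    obtain ⟨i', h1, h2, h3⟩ := hc.exists_index i s
    refine ⟨i', ?_, h3⟩
    rw [Finset.mem_coe, mem_J]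
    refine ⟨⟨h1, ?_⟩, ?_⟩
    · rw [hmd] at h2
      push_cast at h2
      exact h2
    · rw [← h3] at hD
      exact h.level_eq (hc.mem i') hD

lemma IsMin.shift_J_full (h : State M K D n) (hc : IsMin M K D m c) (hmd : m = k * d)
    (a : ZMod k) (s : ℤ) :
    (fun i => c (i + 1)) '' (J k a s d : Set ℤ) = D (a + 1) ∩ range c := by
  apply subset_antisymm
  · rintro _ ⟨i, hi, rfl⟩
    rw [Finset.mem_coe, mem_J] at hi
    have := (hc.arc i).2.1
    rw [hi.2] at this
    exact ⟨this, mem_range_self _⟩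
  · rintro _ ⟨hD, ⟨i, rfl⟩⟩
    have hm0 : (0 : ℤ) < m := by exact_mod_cast hc.pos
    -- move `i - 1` into the window
    have h1 := Int.emod_add_mul_ediv (i - 1 - s) m
    have hq : s + (i - 1 - s) % m = i - 1 + m * (-((i - 1 - s) / m)) := by linarith
    have hlev : ((i : ℤ) : ZMod k) = a + 1 := h.level_eq (hc.mem i) hD
    have hm00 := hc.toIsWalk.cast_eq h
    refine ⟨s + (i - 1 - s) % m, ?_, ?_⟩
    · rw [Finset.mem_coe, mem_J]
      have h2 := Int.emod_nonneg (i - 1 - s) hm0.ne'
      have h3 := Int.emod_lt_of_pos (i - 1 - s) hm0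
      refine ⟨⟨by omega, ?_⟩, ?_⟩
      · have h4 : (m : ℤ) = k * d := by rw [hmd]; push_cast; ring
        rw [← h4]
        omega
      · rw [hq]
        push_cast
        rw [hm00, hlev]
        ring
    · have h5 : s + (i - 1 - s) % m + 1 = i + m * (-((i - 1 - s) / m)) := by
        rw [hq]; ring
      simp only [h5]
      exact hc.toIsWalk.per_mul _ _

end walk

/-- the chains we are looking for; `Ex` is a set of times at which all windows are bases -/
structure Chain (M : Matroid α) (K D : ZMod k → Set α) (n : ℕ) (Ex : ℕ → Prop) (β : ℕ → ZMod k)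
    (X : ZMod k → ℕ → Set α) : Prop where
  zero : ∀ a, X a 0 = ∅
  mono : ∀ a t, t < n → X a t ⊆ X a (t + 1)
  card : ∀ a t, t ≤ n → (X a t).ncard = t
  full : ∀ a, X a n = D a
  base : ∀ a t, t ≤ n → (t = 0 ∨ Ex t ∨ a ≠ β t) →
    M.IsBase (K a ∪ (D a \ X a t) ∪ X (a + 1) t)
  near : ∀ a t, t ≤ n → ∃ S ⊆ K a ∪ (D a \ X a t) ∪ X (a + 1) t, M.Indep S ∧
    (K a ∪ (D a \ X a t) ∪ X (a + 1) t).ncard ≤ S.ncard + 1

lemma Chain.weaken {Ex Ex' : ℕ → Prop} {β : ℕ → ZMod k} {X : ZMod k → ℕ → Set α}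
    (hX : Chain M K D n Ex β X) (h : ∀ t, Ex' t → t = 0 ∨ Ex t) : Chain M K D n Ex' β X where
  zero := hX.zero
  mono := hX.mono
  card := hX.card
  full := hX.full
  base := fun a t ht hcase => hX.base a t ht (by
    rcases hcase with h0 | hE | hb
    · exact Or.inl h0
    · rcases h t hE with h0 | h1
      · exact Or.inl h0
      · exact Or.inr (Or.inl h1)
    · exact Or.inr (Or.inr hb))
  near := hX.near

lemma Chain.subset {Ex : ℕ → Prop} {β : ℕ → ZMod k} {X : ZMod k → ℕ → Set α}
    (hX : Chain M K D n Ex β X)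
    (a : ZMod k) {t : ℕ} (ht : t ≤ n) : X a t ⊆ D a := by
  induction ht using Nat.decreasingInduction with
  | self => rw [hX.full]
  | of_succ t ht ih => exact (hX.mono a t ht).trans ih

lemma exists_starts [NeZero k] (β : ℕ → ZMod k) :
    ∃ s : ℕ → ℤ, ∀ t, ((s (t + 1) : ℤ) : ZMod k) = β (t + 1) + 1 ∧ s (t + 1) ≤ s t ∧
      s t ≤ s (t + 1) + k := by
  have hk : (0 : ℤ) < k := by exact_mod_cast Nat.pos_of_ne_zero (NeZero.ne k)
  have key : ∀ (x : ℤ) (b : ZMod k), ∃ y : ℤ, (y : ZMod k) = b ∧ y ≤ x ∧ x ≤ y + k := by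
    intro x b
    refine ⟨x - (x - b.val) % k, ?_, ?_, ?_⟩
    · have h1 := Int.emod_add_mul_ediv (x - b.val) k
      have h2 : x - (x - b.val) % k = b.val + k * ((x - b.val) / k) := by linarith
      rw [h2]
      push_cast
      simp
    · have := Int.emod_nonneg (x - b.val) hk.ne'
      omega
    · have := Int.emod_lt_of_pos (x - b.val) hk
      omega
  choose f hf using key
  let s : ℕ → ℤ := fun t => Nat.rec 0 (fun t x => f x (β (t + 1) + 1)) t
  exact ⟨s, fun t => hf (s t) (β (t + 1) + 1)⟩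

/-- The part of the walk in `D a` for a shortest closed walk of length `k d`. -/
lemma IsMin.card_part [NeZero k] {m d : ℕ} {c : ℤ → α} (h : State M K D n) (hc : IsMin M K D m c)
    (hmd : m = k * d) (a : ZMod k) : (D a ∩ range c).ncard = d := by
  rw [← hc.image_J_full h hmd a 0]
  exact hc.card_image_J h hmd a 0 le_rfl

/-- the windows after the exchange of a whole shortest closed walk are bases -/
lemma IsMin.isBase_full {m d : ℕ} {c : ℤ → α} (h : State M K D n) (hc : IsMin M K D m c)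
    (hmd : m = k * d) (a : ZMod k) :
    M.IsBase (K a ∪ (D a \ (D a ∩ range c)) ∪ (D (a + 1) ∩ range c)) := by
  have h1 := hc.isBase_shift h (J k a 0 d) (fun i hi => (mem_J.1 hi).2)
    (IsMin.window hmd le_rfl)
  rw [hc.shift_J_full h hmd, hc.image_J_full h hmd] at h1
  exact h1

/-- the next state -/
lemma IsMin.next_state [NeZero k] {m d : ℕ} {c : ℤ → α} (h : State M K D n)
    (hc : IsMin M K D m c) (hmd : m = k * d) :
    State M (fun a => K a ∪ (D (a + 1) ∩ range c)) (fun a => D a \ (D a ∩ range c)) (n - d) := by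
  have hCsub : ∀ a, D a ∩ range c ⊆ D a := fun a => inter_subset_left
  have hCfin : ∀ a, (D a ∩ range c).Finite := fun a => (h.fin a).subset (hCsub a)
  refine ⟨?_, ?_, ?_, ?_, ?_, ?_, ?_, ?_⟩
  · exact fun a => (h.fin a).subset diff_subset
  · exact fun a => (h.finK a).union (hCfin _)
  · intro a
    show (D a \ (D a ∩ range c)).ncard = n - d
    rw [ncard_diff (hCsub a) (hCfin a), h.card, hc.card_part h hmd]
  · exact fun a b hab => (h.disj a b hab).mono diff_subset diff_subset
  · intro a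
    have h1 := hc.isBase_full h hmd a
    rwa [union_right_comm] at h1
  · intro a
    show M.IsBase (K a ∪ (D (a + 1) ∩ range c) ∪ (D (a + 1) \ (D (a + 1) ∩ range c)))
    rw [union_assoc, union_diff_cancel (hCsub _)]
    exact h.base₂ a
  · intro a
    rw [disjoint_left]
    rintro x (hxK | hxC) ⟨hxD, hxn⟩
    · exact (h.dj₁ a).le_bot ⟨hxK, hxD⟩
    · exact hxn ⟨hxD, hxC.2⟩
  · intro a
    rw [disjoint_left]
    rintro x (hxK | hxC) ⟨hxD, hxn⟩
    · exact (h.dj₂ a).le_bot ⟨hxK, hxD⟩
    · exact hxn hxC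

/-- **The step**: a chain for the next state gives a chain for the present state. -/
theorem IsMin.extend_chain [NeZero k] {m d : ℕ} {c : ℤ → α} (h : State M K D n)
    (hc : IsMin M K D m c) (hmd : m = k * d) {Ex : ℕ → Prop} (β : ℕ → ZMod k)
    {X2 : ZMod k → ℕ → Set α}
    (hX2 : Chain M (fun a => K a ∪ (D (a + 1) ∩ range c)) (fun a => D a \ (D a ∩ range c)) (n - d)
      Ex (fun t => β (t + d)) X2) :
    ∃ X, Chain M K D n (fun t => t = d ∨ (d < t ∧ Ex (t - d))) β X := by
  obtain ⟨s, hs⟩ := exists_starts β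
  -- the part of the walk in `D a`
  set C : ZMod k → Set α := fun a => D a ∩ range c with hC
  have hfull : ∀ a s, c '' (J k a s d : Set ℤ) = C a := fun a s => hc.image_J_full h hmd a s
  have hCsub : ∀ a, C a ⊆ D a := fun a => inter_subset_left
  have hCfin : ∀ a, (C a).Finite := fun a => (h.fin a).subset (hCsub a)
  have hCcard : ∀ a, (C a).ncard = d := fun a => hc.card_part h hmd a
  have hdn : d ≤ n := by
    rw [← hCcard 0, ← h.card 0]
    exact ncard_le_ncard (hCsub 0) (h.fin 0)
  -- the windows at time `d`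
  have hbase_d : ∀ a, M.IsBase (K a ∪ (D a \ C a) ∪ C (a + 1)) := hc.isBase_full h hmd
  have hX2sub : ∀ a u, u ≤ n - d → X2 a u ⊆ D a \ C a := fun a u hu => hX2.subset a hu
  -- the first part of the chain
  let X1 : ZMod k → ℕ → Set α := fun a t => c '' (J k a (s t) t : Set ℤ)
  have hX1d : ∀ a, X1 a d = C a := fun a => hfull a _
  classical
  let X : ZMod k → ℕ → Set α := fun a t => if t ≤ d then X1 a t else C a ∪ X2 a (t - d)
  have hXle : ∀ a t, t ≤ d → X a t = X1 a t := fun a t ht => if_pos ht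
  have hXge : ∀ a t, d ≤ t → X a t = C a ∪ X2 a (t - d) := by
    intro a t ht
    rcases Nat.eq_or_lt_of_le ht with rfl | hlt
    · rw [hXle a d le_rfl, hX1d, Nat.sub_self, hX2.zero, union_empty]
    · exact if_neg (by omega)
  -- the windows after time `d`
  have hwin : ∀ a t, d ≤ t → t ≤ n → K a ∪ (D a \ X a t) ∪ X (a + 1) t
      = (K a ∪ C (a + 1)) ∪ ((D a \ C a) \ X2 a (t - d)) ∪ X2 (a + 1) (t - d) := by
    intro a t ht _
    rw [hXge a t ht, hXge (a + 1) t ht, diff_diff]
    ext x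
    simp only [mem_union]
    tauto
  refine ⟨X, ?_, ?_, ?_, ?_, ?_, ?_⟩
  · intro a
    rw [hXle a 0 (Nat.zero_le _)]
    show c '' (J k a (s 0) 0 : Set ℤ) = ∅
    rw [J_zero]
    simp
  · intro a t ht
    rcases lt_or_ge t d with hlt | hge
    · rw [hXle a t hlt.le, hXle a (t + 1) hlt]
      exact image_mono (Finset.coe_subset.2 (J_mono (hs t).2.1 (hs t).2.2))
    · rw [hXge a t hge, hXge a (t + 1) (by omega)]
      have : t + 1 - d = (t - d) + 1 := by omega
      rw [this]
      exact union_subset_union_right _ (hX2.mono a (t - d) (by omega))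
  · intro a t ht
    rcases le_or_gt t d with hle | hgt
    · rw [hXle a t hle]
      exact hc.card_image_J h hmd a _ hle
    · rw [hXge a t hgt.le, ncard_union_eq ?_ (hCfin a) ?_, hCcard, hX2.card a _ (by omega)]
      · omega
      · rw [disjoint_left]
        intro x hx1 hx2
        exact (hX2sub a _ (by omega) hx2).2 hx1
      · exact (h.fin a).subset ((hX2sub a _ (by omega)).trans diff_subset)
  · intro a
    rw [hXge a n hdn, hX2.full, union_diff_cancel (hCsub a)]
  · intro a t ht hcase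
    rcases le_or_gt t d with hle | hgt
    · rcases hcase with rfl | hE | hne
      · rw [hXle a 0 hle, hXle (a + 1) 0 hle]
        show M.IsBase (K a ∪ (D a \ c '' (J k a (s 0) 0 : Set ℤ)) ∪
          c '' (J k (a + 1) (s 0) 0 : Set ℤ))
        rw [J_zero, J_zero]
        have := h.base₁ a
        simpa using this
      · have htd : t = d := by
          rcases hE with h1 | ⟨h1, -⟩
          · exact h1
          · omega
        subst htd
        rw [hXle a t le_rfl, hXle (a + 1) t le_rfl, hX1d, hX1d]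
        exact hbase_d a
      · rcases Nat.eq_zero_or_pos t with rfl | hpos
        · rw [hXle a 0 hle, hXle (a + 1) 0 hle]
          show M.IsBase (K a ∪ (D a \ c '' (J k a (s 0) 0 : Set ℤ)) ∪
            c '' (J k (a + 1) (s 0) 0 : Set ℤ))
          rw [J_zero, J_zero]
          have := h.base₁ a
          simpa using this
        · obtain ⟨t, rfl⟩ : ∃ t', t = t' + 1 := ⟨t - 1, by omega⟩
          rw [hXle a _ hle, hXle (a + 1) _ hle]
          have h1 := hc.isBase_shift h (J k a (s (t + 1)) (t + 1)) (fun i hi => (mem_J.1 hi).2)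
            (IsMin.window hmd hle)
          rw [shift_J ?_ c] at h1
          · exact h1
          · rw [(hs t).1]
            intro hcon
            exact hne (add_right_cancel hcon)
    · rw [hwin a t hgt.le ht]
      refine hX2.base a (t - d) (by omega) ?_
      rcases hcase with rfl | hE | hne
      · omega
      · right; left
        rcases hE with h1 | ⟨-, h1⟩
        · omega
        · exact h1
      · right; right
        have : t - d + d = t := by omega
        simpa [this] using hne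
  · intro a t ht
    rcases le_or_gt t d with hle | hgt
    · rw [hXle a t hle, hXle (a + 1) t hle]
      have h1 := hc.isBase_shift h (J k a (s t) t) (fun i hi => (mem_J.1 hi).2)
        (IsMin.window hmd hle)
      have hfin : (K a ∪ (D a \ X1 a t) ∪ X1 (a + 1) t).Finite :=
        ((h.finK a).union ((h.fin a).subset diff_subset)).union
          ((J k (a + 1) (s t) t).finite_toSet.image _)
      refine ⟨(K a ∪ (D a \ X1 a t) ∪ X1 (a + 1) t) \ {c (s t)}, diff_subset, ?_, ?_⟩
      · refine h1.indep.subset ?_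
        rintro x ⟨hx1 | hx1, hx2⟩
        · exact Or.inl hx1
        · exact Or.inr (J_sub_shift c ⟨hx1, hx2⟩)
      · have := pred_ncard_le_ncard_diff_singleton (K a ∪ (D a \ X1 a t) ∪ X1 (a + 1) t) (c (s t))
        omega
    · rw [hwin a t hgt.le ht]
      exact hX2.near a (t - d) (by omega)

/-- a chain for the empty state -/
lemma State.chain_zero (h : State M K D 0) (Ex : ℕ → Prop) (β : ℕ → ZMod k) :
    Chain M K D 0 Ex β (fun _ _ => ∅) := by
  have hD : ∀ a, D a = ∅ := fun a => (ncard_eq_zero (h.fin a)).1 (h.card a)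
  refine ⟨?_, ?_, ?_, ?_, ?_, ?_⟩
  · intro a; rfl
  · intro a t ht; omega
  · intro a t ht; simp; omega
  · intro a; exact (hD a).symm
  · intro a t _ _
    have := h.base₁ a
    simpa using this
  · intro a t _
    refine ⟨_, subset_rfl, ?_, by omega⟩
    have := (h.base₁ a).indep
    simpa using this

lemma IsMin.exists_winding {m : ℕ} {c : ℤ → α} (h : State M K D n)
    (hc : IsMin M K D m c) : ∃ d, m = k * d ∧ 0 < d := by
  obtain ⟨d, hmd⟩ : k ∣ m := (ZMod.natCast_eq_zero_iff m k).1 (hc.toIsWalk.cast_eq h)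
  refine ⟨d, hmd, ?_⟩
  rcases Nat.eq_zero_or_pos d with rfl | hd
  · have := hc.pos
    rw [hmd] at this
    simp at this
  · exact hd

/-- if there is a closed walk of length `k` then the shortest closed walks have length `k` -/
lemma IsMin.winding_one [NeZero k] {m d : ℕ} {c : ℤ → α}
    (hc : IsMin M K D m c) (hmd : m = k * d) (hd : 0 < d) (hw : ∃ c', IsWalk M K D k c') :
    d = 1 := by
  have hk : 0 < k := Nat.pos_of_ne_zero (NeZero.ne k)
  by_contra hne
  refine hc.min k ?_ hk hw
  rw [hmd]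
  calc k = k * 1 := (mul_one k).symm
    _ < k * d := Nat.mul_lt_mul_of_pos_left (by omega) hk

/-- **Main lemma**: every state has a chain. -/
theorem exists_chain [NeZero k] (M : Matroid α) (ν : ℕ)
    (hν : ∀ (n : ℕ) (K D : ZMod k → Set α), State M K D n → ν < n → ∃ c, IsWalk M K D k c) :
    ∀ (n : ℕ) (K D : ZMod k → Set α), State M K D n → ∀ β : ℕ → ZMod k,
      ∃ X, Chain M K D n (fun t => ν + t ≤ n) β X := by
  intro n
  induction n using Nat.strong_induction_on with
  | _ n IH =>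
  intro K D h β
  rcases Nat.eq_zero_or_pos n with rfl | hn
  · exact ⟨_, h.chain_zero _ β⟩
  obtain ⟨m, c, hc⟩ := h.exists_min hn
  obtain ⟨d, hmd, hd⟩ := hc.exists_winding h
  have hdn : d ≤ n := by
    rw [← hc.card_part h hmd 0, ← h.card 0]
    exact ncard_le_ncard inter_subset_left (h.fin 0)
  obtain ⟨X2, hX2⟩ := IH (n - d) (by omega) _ _ (hc.next_state h hmd) (fun t => β (t + d))
  obtain ⟨X, hX⟩ := hc.extend_chain h hmd β hX2
  refine ⟨X, hX.weaken ?_⟩
  intro t ht
  rcases Nat.eq_zero_or_pos t with h0 | hpos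
  · exact Or.inl h0
  · right
    have hd1 : d = 1 := hc.winding_one hmd hd (hν n K D h (by omega))
    rcases Nat.eq_or_lt_of_le hpos with h1 | h1
    · left; omega
    · right; exact ⟨by omega, by omega⟩

/-- the same with a first step of winding number one -/
theorem exists_chain_first [NeZero k] (M : Matroid α) (ν : ℕ)
    (hν : ∀ (n : ℕ) (K D : ZMod k → Set α), State M K D n → ν < n → ∃ c, IsWalk M K D k c)
    (n : ℕ) (K D : ZMod k → Set α) (h : State M K D n) (hn : 0 < n)
    (hw : ∃ c, IsWalk M K D k c) (β : ℕ → ZMod k) :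
    ∃ X, Chain M K D n (fun t => t = 1 ∨ ν + t ≤ n) β X := by
  obtain ⟨m, c, hc⟩ := h.exists_min hn
  obtain ⟨d, hmd, hd⟩ := hc.exists_winding h
  have hd1 : d = 1 := hc.winding_one hmd hd hw
  subst hd1
  obtain ⟨X2, hX2⟩ := exists_chain M ν hν (n - 1) _ _ (hc.next_state h hmd) (fun t => β (t + 1))
  obtain ⟨X, hX⟩ := hc.extend_chain h hmd β hX2
  refine ⟨X, hX.weaken ?_⟩
  intro t ht
  rcases Nat.eq_zero_or_pos t with h0 | hpos
  · exact Or.inl h0
  · right
    rcases Nat.eq_or_lt_of_le hpos with h1 | h1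
    · left; omega
    · right
      refine ⟨h1, ?_⟩
      show ν + (t - 1) ≤ n - 1
      omega

end Pool.Agent.Helper87.NC
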