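import Mathlib

/-!
# Near-cyclic orderings of matroids: the shortest closed walk

`State M K D n`: the sets `D a` (`a` modulo `k`) are disjoint of size `n`, and both `K a ∪ D a` and
`K a ∪ D (a + 1)` are bases.  A shortest closed walk in the exchange digraph (an arc goes from
`e ∈ D a` to `f ∈ D (a + 1)` if `f` is not in the closure of `K a ∪ D a - e`) has distinct vertices
and no chords, so that modulo `K a ∪ (D a minus the walk)` consecutive elements of the walk are
parallel.
-/

namespace Pool.Agent.Helper87.NC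

open Set

variable {α : Type*} {M : Matroid α} {k : ℕ}

/-- an arc of the exchange digraph at level `a` -/
def Arc (M : Matroid α) (K D : ZMod k → Set α) (a : ZMod k) (e f : α) : Prop :=
  e ∈ D a ∧ f ∈ D (a + 1) ∧ f ∉ M.closure (K a ∪ (D a \ {e}))

/-- the states of the construction -/
structure State (M : Matroid α) (K D : ZMod k → Set α) (n : ℕ) : Prop where
  fin : ∀ a, (D a).Finite
  finK : ∀ a, (K a).Finite
  card : ∀ a, (D a).ncard = n
  disj : ∀ a b, a ≠ b → Disjoint (D a) (D b)
  base₁ : ∀ a, M.IsBase (K a ∪ D a)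
  base₂ : ∀ a, M.IsBase (K a ∪ D (a + 1))
  dj₁ : ∀ a, Disjoint (K a) (D a)
  dj₂ : ∀ a, Disjoint (K a) (D (a + 1))

variable {K D : ZMod k → Set α} {n : ℕ}

lemma State.sdiff_eq (h : State M K D n) {a : ZMod k} {e : α} (he : e ∈ D a) :
    (K a ∪ D a) \ {e} = K a ∪ (D a \ {e}) := by
  ext x
  simp only [mem_diff, mem_union, mem_singleton_iff]
  constructor
  · rintro ⟨h1 | h1, h2⟩
    · exact Or.inl h1
    · exact Or.inr ⟨h1, h2⟩
  · rintro (h1 | ⟨h1, h2⟩)
    · refine ⟨Or.inl h1, ?_⟩
      rintro rfl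
      exact (h.dj₁ a).le_bot ⟨h1, he⟩
    · exact ⟨Or.inr h1, h2⟩

lemma State.level_eq (h : State M K D n) {a b : ZMod k} {e : α} (ha : e ∈ D a) (hb : e ∈ D b) :
    a = b := by
  by_contra hab
  exact (h.disj a b hab).le_bot ⟨ha, hb⟩

lemma State.exists_arc (h : State M K D n) {a : ZMod k} {e : α} (he : e ∈ D a) :
    ∃ f, Arc M K D a e f := by
  by_contra hcon
  have hcon' : ∀ f ∈ D (a + 1), f ∈ M.closure (K a ∪ (D a \ {e})) := by
    intro f hf
    by_contra hf'
    exact hcon ⟨f, he, hf, hf'⟩
  have hE := (h.base₂ a).closure_eq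
  have hsub : K a ∪ D (a + 1) ⊆ M.closure (K a ∪ (D a \ {e})) := by
    apply union_subset
    · refine subset_trans subset_union_left (M.subset_closure _ ?_)
      rw [← h.sdiff_eq he]
      exact diff_subset.trans (h.base₁ a).subset_ground
    · exact hcon'
  have h1 : M.closure (K a ∪ D (a + 1)) ⊆ M.closure (K a ∪ (D a \ {e})) :=
    M.closure_subset_closure_of_subset_closure hsub
  have h2 : e ∈ M.closure (K a ∪ (D a \ {e})) :=
    h1 (by rw [hE]; exact (h.base₁ a).subset_ground (Or.inr he))
  rw [← h.sdiff_eq he] at h2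
  exact (h.base₁ a).indep.notMem_closure_sdiff_of_mem (Or.inr he) h2

/-- a closed walk of length `m` of the exchange digraph, as an `m`-periodic sequence -/
structure IsWalk (M : Matroid α) (K D : ZMod k → Set α) (m : ℕ) (c : ℤ → α) : Prop where
  arc : ∀ i : ℤ, Arc M K D (i : ZMod k) (c i) (c (i + 1))
  per : ∀ i : ℤ, c (i + m) = c i

/-- a path which closes up gives a closed walk -/
lemma mk_walk (p : ℤ → α) (j : ℤ) (m : ℕ) (hm : 0 < m) (hk : (m : ZMod k) = 0)
    (harc : ∀ i : ℤ, j ≤ i → i < j + m - 1 → Arc M K D (i : ZMod k) (p i) (p (i + 1)))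
    (hclose : Arc M K D ((j + m - 1 : ℤ) : ZMod k) (p (j + m - 1)) (p j)) :
    ∃ c, IsWalk M K D m c := by
  refine ⟨fun t => p (j + (t - j) % m), ⟨?_, ?_⟩⟩
  · intro i
    have hm0 : (0 : ℤ) < m := by exact_mod_cast hm
    have hu0 : 0 ≤ (i - j) % m := Int.emod_nonneg _ hm0.ne'
    have hum : (i - j) % m < m := Int.emod_lt_of_pos _ hm0
    have hlev : ((j + (i - j) % m : ℤ) : ZMod k) = (i : ZMod k) := by
      have h1 := Int.emod_add_mul_ediv (i - j) m
      have h2 : (i : ℤ) = j + (i - j) % m + m * ((i - j) / m) := by linarith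
      conv_rhs => rw [h2]
      push_cast
      rw [hk]
      ring
    rcases lt_or_ge ((i - j) % m) (m - 1) with hlt | hge
    · have h1 : (i + 1 - j) % m = (i - j) % m + 1 := by
        have : i + 1 - j = (i - j) + 1 := by ring
        rw [this, Int.add_emod]
        have h3 : (1 : ℤ) % m = 1 := Int.emod_eq_of_lt (by norm_num) (by omega)
        rw [h3]
        exact Int.emod_eq_of_lt (by omega) (by omega)
      have h2 := harc (j + (i - j) % m) (by omega) (by omega)
      rw [hlev] at h2
      simp only [h1]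
      rw [← add_assoc]
      exact h2
    · have h0 : (i - j) % m = m - 1 := by omega
      have h1 : (i + 1 - j) % m = 0 := by
        have h3 := Int.emod_add_mul_ediv (i - j) m
        have : i + 1 - j = m * ((i - j) / m + 1) := by
          rw [h0] at h3
          linarith
        rw [this]
        exact Int.mul_emod_right _ _
      simp only [h1, h0]
      rw [h0] at hlev
      rw [add_zero, ← hlev]
      have h4 : j + ((m : ℤ) - 1) = j + m - 1 := by ring
      rw [h4]
      exact hclose
  · intro i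
    have : i + m - j = (i - j) + m := by ring
    simp only [this, Int.add_emod_right]

lemma IsWalk.mem {m : ℕ} {c : ℤ → α} (hc : IsWalk M K D m c) (i : ℤ) : c i ∈ D (i : ZMod k) :=
  (hc.arc i).1

lemma IsWalk.cast_eq {m : ℕ} {c : ℤ → α} (h : State M K D n) (hc : IsWalk M K D m c) :
    (m : ZMod k) = 0 := by
  have h1 := hc.mem (0 + m)
  rw [hc.per 0] at h1
  have h2 := h.level_eq h1 (hc.mem 0)
  push_cast at h2
  simpa using h2

/-- a closed walk exists -/
lemma State.exists_walk [NeZero k] (h : State M K D n) (hn : 0 < n) :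
    ∃ m, 0 < m ∧ ∃ c, IsWalk M K D m c := by
  classical
  -- vertices
  have hne : (D 0).Nonempty := by
    rw [← ncard_pos (h.fin 0), h.card]
    exact hn
  obtain ⟨e0, he0⟩ := hne
  let V := {p : ZMod k × α // p.2 ∈ D p.1}
  have hV : Finite V := by
    have : (⋃ a : ZMod k, ({a} : Set (ZMod k)) ×ˢ D a).Finite :=
      finite_iUnion fun a => (finite_singleton a).prod (h.fin a)
    have hsub : {p : ZMod k × α | p.2 ∈ D p.1} ⊆ ⋃ a : ZMod k, ({a} : Set (ZMod k)) ×ˢ D a := by
      rintro ⟨a, e⟩ hp
      exact mem_iUnion.2 ⟨a, by simpa using hp⟩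
    exact (this.subset hsub).to_subtype
  choose s hs using fun (v : V) => h.exists_arc v.2
  let step : V → V := fun v => ⟨(v.1.1 + 1, s v), (hs v).2.1⟩
  let w : ℕ → V := fun n => step^[n] ⟨(0, e0), he0⟩
  have hw : ∀ n, w (n + 1) = step (w n) := fun n => Function.iterate_succ_apply' _ _ _
  have hlev : ∀ n : ℕ, (w n).1.1 = (n : ZMod k) := by
    intro n
    induction n with
    | zero => simp [w]
    | succ n ih => rw [hw]; simp only [step]; rw [ih]; push_cast; rfl
  obtain ⟨p, q, hpq, heq⟩ := Finite.exists_ne_map_eq_of_infinite w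
  wlog hlt : p < q generalizing p q
  · exact this q p (Ne.symm hpq) heq.symm (lt_of_le_of_ne (not_lt.1 hlt) (Ne.symm hpq))
  have hk : ((q - p : ℕ) : ZMod k) = 0 := by
    have h1 := hlev p
    rw [heq, hlev q] at h1
    rw [Nat.cast_sub hlt.le, h1, sub_self]
  refine ⟨q - p, by omega, mk_walk (fun i : ℤ => (w i.toNat).1.2) (p : ℤ) (q - p) (by omega) hk ?_ ?_⟩
  · intro i hi1 hi2
    obtain ⟨i', rfl⟩ := Int.eq_ofNat_of_zero_le (by omega : 0 ≤ i)
    have h1 : ((i' : ℤ) + 1).toNat = i' + 1 := by omega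
    have h2 := hs (w i')
    simp only [Int.toNat_natCast, h1, hw, step]
    rw [hlev i'] at h2
    simpa using h2
  · have h1 : ((p : ℤ) + ((q - p : ℕ) : ℤ) - 1) = ((q - 1 : ℕ) : ℤ) := by omega
    rw [h1]
    have h2 := hs (w (q - 1))
    have h3 : (w q).1.2 = s (w (q - 1)) := by
      have : q = (q - 1) + 1 := by omega
      conv_lhs => rw [this, hw]
    simp only [Int.toNat_natCast]
    rw [heq, h3]
    rw [hlev] at h2
    simpa using h2

end Pool.Agent.Helper87.NC
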