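import Pool.Agent.Helper87.NC.Chain

/-!
# Closed walks of length `k`

In the initial state there is always a closed walk of length `k`; if all sets with at most `r - δ`
elements are independent, there is one in every state with `n > 2 δ`.
-/

namespace Pool.Agent.Helper87.NC

open Set

variable {α : Type*} {M : Matroid α} {k : ℕ} {K D : ZMod k → Set α} {n : ℕ}

/-- the intersection of the closures of subsets of an independent set -/
lemma mem_closure_diff_of_forall {I Z : Set α} (hI : M.Indep I) {x : α} (hx : x ∈ M.closure I)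
    (h : ∀ z ∈ Z, x ∈ M.closure (I \ {z})) : x ∈ M.closure (I \ Z) := by
  by_cases hZ : Z.Nonempty
  · have hne : Nonempty Z := hZ.to_subtype
    have h1 := hI.closure_iInter_eq_biInter_closure_of_forall_subset
      (Js := fun e : Z => I \ {(e : α)}) (fun e => diff_subset)
    have h2 : x ∈ M.closure (⋂ e : Z, I \ {(e : α)}) := by
      rw [h1]
      exact mem_iInter.2 fun e => h e e.2
    refine M.closure_subset_closure ?_ h2
    intro y hy
    rw [mem_iInter] at hy
    obtain ⟨z0, hz0⟩ := hZ
    exact ⟨(hy ⟨z0, hz0⟩).1, fun hyZ => (hy ⟨y, hyZ⟩).2 rfl⟩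
  · rw [not_nonempty_iff_eq_empty] at hZ
    subst hZ
    simpa using hx

/-- in the initial state there is a closed walk of length `k` -/
lemma State.walk_initial [NeZero k] (h : State M (fun _ => ∅) D n) (hn : 0 < n) :
    ∃ c, IsWalk M (fun _ => ∅) D k c := by
  classical
  have hk : 0 < k := Nat.pos_of_ne_zero (NeZero.ne k)
  have hne : (D 0).Nonempty := by
    rw [← ncard_pos (h.fin 0), h.card]
    exact hn
  obtain ⟨e0, he0⟩ := hne
  have hb : ∀ a, M.IsBase (D a) := fun a => by simpa using h.base₁ a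
  let V := {p : ZMod k × α // p.2 ∈ D p.1 ∧ e0 ∉ M.closure (D p.1 \ {p.2})}
  have hstep : ∀ v : V, ∃ f, Arc M (fun _ => ∅) D v.1.1 v.1.2 f ∧
      e0 ∉ M.closure (D (v.1.1 + 1) \ {f}) := by
    rintro ⟨⟨a, e⟩, he, hcl⟩
    by_contra hcon
    push Not at hcon
    apply hcl
    have h1 : e0 ∈ M.closure (D (a + 1) \ {f | f ∉ M.closure (D a \ {e})}) := by
      apply mem_closure_diff_of_forall (hb (a + 1)).indep
      · rw [(hb (a + 1)).closure_eq]
        exact (hb 0).subset_ground he0
      · intro f hf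
        by_cases hfD : f ∈ D (a + 1)
        · exact hcon f ⟨he, hfD, by simpa using hf⟩
        · rw [sdiff_singleton_eq_self hfD, (hb (a + 1)).closure_eq]
          exact (hb 0).subset_ground he0
    have h2 : D (a + 1) \ {f | f ∉ M.closure (D a \ {e})} ⊆ M.closure (D a \ {e}) := by
      rintro f ⟨_, hf⟩
      simpa using hf
    exact M.closure_subset_closure_of_subset_closure h2 h1
  choose s hs using hstep
  let step : V → V := fun v => ⟨(v.1.1 + 1, s v), (hs v).1.2.1, (hs v).2⟩
  let w : ℕ → V := fun n => step^[n] ⟨(0, e0), he0,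
    (hb 0).indep.notMem_closure_sdiff_of_mem he0⟩
  have hw : ∀ n, w (n + 1) = step (w n) := fun n => Function.iterate_succ_apply' _ _ _
  have hlev : ∀ n : ℕ, (w n).1.1 = (n : ZMod k) := by
    intro n
    induction n with
    | zero => simp [w]
    | succ n ih => rw [hw]; simp only [step]; rw [ih]; push_cast; rfl
  refine mk_walk (fun i : ℤ => (w i.toNat).1.2) 0 k hk (by simp) ?_ ?_
  · intro i hi1 hi2
    obtain ⟨i', rfl⟩ := Int.eq_ofNat_of_zero_le (by omega : 0 ≤ i)
    have h1 : ((i' : ℤ) + 1).toNat = i' + 1 := by omega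
    have h2 := (hs (w i')).1
    simp only [Int.toNat_natCast, h1, hw, step]
    rw [hlev i'] at h2
    simpa using h2
  · have h1 : ((0 : ℤ) + (k : ℤ) - 1) = ((k - 1 : ℕ) : ℤ) := by omega
    rw [h1]
    have h2 := (w (k - 1)).2
    rw [hlev] at h2
    have h3 : (w 0).1.2 = e0 := rfl
    have h4 : (((k - 1 : ℕ) : ℤ) : ZMod k) + 1 = 0 := by
      rw [Int.cast_natCast, Nat.cast_sub (by omega : 1 ≤ k)]
      simp
    simp only [Int.toNat_natCast, Int.toNat_zero, h3]
    refine ⟨by simpa using h2.1, ?_, ?_⟩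
    · rw [h4]
      exact he0
    · simpa using h2.2

/-- a closed walk of length one if `k = 1` -/
lemma State.walk_one {K D : ZMod 1 → Set α} (h : State M K D n) (hn : 0 < n) :
    ∃ c, IsWalk M K D 1 c := by
  have hne : (D 0).Nonempty := by
    rw [← ncard_pos (h.fin 0), h.card]
    exact hn
  obtain ⟨e, he⟩ := hne
  refine ⟨fun _ => e, ⟨fun i => ?_, fun i => rfl⟩⟩
  have h0 : ∀ a : ZMod 1, a = 0 := fun a => Subsingleton.elim _ _
  have h1 := (h.base₁ 0).indep.notMem_closure_sdiff_of_mem (e := e) (Or.inr he)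
  rw [h.sdiff_eq he] at h1
  refine ⟨?_, ?_, ?_⟩
  · rw [h0 (i : ZMod 1)]; exact he
  · rw [h0 ((i : ZMod 1) + 1)]; exact he
  · rw [h0 (i : ZMod 1)]; exact h1

section dense

variable {r δ : ℕ}

/-- the tails of the arcs with head `f` -/
lemma State.indeg (h : State M K D n) (hr : ∀ a, (K a).ncard + n = r)
    (hδ : ∀ S ⊆ M.E, S.ncard + δ ≤ r → M.Indep S) (hk : 1 < k) {a : ZMod k} {f : α}
    (hf : f ∈ D (a + 1)) : n ≤ {e | Arc M K D a e f}.ncard + δ := by
  classical
  haveI : Fact (1 < k) := ⟨hk⟩
  have ha : a ≠ a + 1 := by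
    intro hcon
    have : (1 : ZMod k) = 0 := by linear_combination -hcon
    exact one_ne_zero this
  have hfD : f ∉ D a := fun hfa => (h.disj a (a + 1) ha).le_bot ⟨hfa, hf⟩
  have hfK : f ∉ K a := fun hfa => (h.dj₂ a).le_bot ⟨hfa, hf⟩
  have hfE : f ∈ M.E := (h.base₂ a).subset_ground (Or.inr hf)
  set Z : Set α := {e | Arc M K D a e f} with hZ
  have hZD : Z ⊆ D a := fun e he => he.1
  -- `f` is in the closure of `K a ∪ Z`
  have h1 : f ∈ M.closure ((K a ∪ D a) \ (D a \ Z)) := by
    apply mem_closure_diff_of_forall (h.base₁ a).indep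
    · rw [(h.base₁ a).closure_eq]
      exact hfE
    · rintro z ⟨hzD, hzZ⟩
      rw [h.sdiff_eq hzD]
      by_contra hcon
      exact hzZ ⟨hzD, hf, hcon⟩
  have h2 : (K a ∪ D a) \ (D a \ Z) = K a ∪ Z := by
    ext x
    have := @hZD x
    have h3 : x ∈ K a → x ∉ D a := fun h1 h2 => (h.dj₁ a).le_bot ⟨h1, h2⟩
    simp only [mem_diff, mem_union]
    tauto
  rw [h2] at h1
  have hfZ : f ∉ K a ∪ Z := by
    rintro (h3 | h3)
    · exact hfK h3
    · exact hfD (hZD h3)
  have hZfin : Z.Finite := (h.fin a).subset hZD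
  by_contra hcon
  push Not at hcon
  have h4 : M.Indep (insert f (K a ∪ Z)) := by
    apply hδ
    · apply insert_subset hfE
      exact union_subset (subset_union_left.trans (h.base₁ a).subset_ground)
        (hZD.trans (subset_union_right.trans (h.base₁ a).subset_ground))
    · rw [ncard_insert_of_notMem hfZ ((h.finK a).union hZfin)]
      have h5 := ncard_union_le (K a) Z
      have h6 := hr a
      omega
  have h7 := h4.notMem_closure_sdiff_of_mem (mem_insert f _)
  rw [insert_sdiff_self_of_notMem hfZ] at h7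
  exact h7 h1

/-- if all sets with at most `r - δ` elements are independent and `n > 2 δ` then there is a closed
walk of length `k` -/
lemma State.walk_dense [NeZero k] (h : State M K D n) (hr : ∀ a, (K a).ncard + n = r)
    (hδ : ∀ S ⊆ M.E, S.ncard + δ ≤ r → M.Indep S) (hn : 2 * δ < n) :
    ∃ c, IsWalk M K D k c := by
  classical
  rcases Nat.lt_or_ge 1 k with hk | hk
  swap
  · have hk0 := NeZero.ne k
    obtain rfl : k = 1 := by omega
    exact h.walk_one (by omega)
  -- an element `e` of `D 0` with many out-neighbours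
  have hout : ∃ e ∈ D 0, n ≤ {f | Arc M K D 0 e f}.ncard + δ := by
    by_contra hcon
    push Not at hcon
    have hfin0 := h.fin 0
    have hfin1 := h.fin (0 + 1)
    have hD0 : hfin0.toFinset.card = n := by rw [← ncard_eq_toFinset_card _ hfin0, h.card]
    have hD1 : hfin1.toFinset.card = n := by rw [← ncard_eq_toFinset_card _ hfin1, h.card]
    have hdc := Finset.sum_card_bipartiteAbove_eq_sum_card_bipartiteBelow
      (s := hfin0.toFinset) (t := hfin1.toFinset) (fun e f => Arc M K D 0 e f)
    have hA : ∀ e ∈ hfin0.toFinset,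
        (hfin1.toFinset.bipartiteAbove (fun e f => Arc M K D 0 e f) e).card + δ + 1 ≤ n := by
      intro e he
      have h1 := hcon e (by simpa using he)
      have h2 : {f | Arc M K D 0 e f}
          = (hfin1.toFinset.bipartiteAbove (fun e f => Arc M K D 0 e f) e : Set α) := by
        ext f
        simp only [Finset.coe_bipartiteAbove, mem_setOf_eq, Set.Finite.mem_toFinset]
        exact ⟨fun hf => ⟨hf.2.1, hf⟩, fun hf => hf.2⟩
      rw [h2, ncard_coe_finset] at h1
      omega
    have hB : ∀ f ∈ hfin1.toFinset,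
        n ≤ (hfin0.toFinset.bipartiteBelow (fun e f => Arc M K D 0 e f) f).card + δ := by
      intro f hf
      have h1 := h.indeg hr hδ hk (a := 0) (f := f) (by simpa using hf)
      have h2 : {e | Arc M K D 0 e f}
          = (hfin0.toFinset.bipartiteBelow (fun e f => Arc M K D 0 e f) f : Set α) := by
        ext e
        simp only [Finset.coe_bipartiteBelow, mem_setOf_eq, Set.Finite.mem_toFinset]
        exact ⟨fun hf => ⟨hf.1, hf⟩, fun hf => hf.2⟩
      rw [h2, ncard_coe_finset] at h1
      exact h1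
    have hA' := Finset.sum_le_sum hA
    have hB' := Finset.sum_le_sum hB
    simp only [Finset.sum_add_distrib, Finset.sum_const, hD0, hD1, smul_eq_mul, mul_one] at hA' hB'
    rw [hdc] at hA'
    have : 0 < n := by omega
    linarith
  obtain ⟨e, he, heout⟩ := hout
  -- the backward walk
  let V := {p : ZMod k × α // p.2 ∈ D p.1}
  have hback : ∀ v : V, ∃ g, Arc M K D (v.1.1 - 1) g v.1.2 := by
    rintro ⟨⟨a, f⟩, hf⟩
    have h1 := h.indeg hr hδ hk (a := a - 1) (f := f) (by simpa using hf)
    have h2 : 0 < {e | Arc M K D (a - 1) e f}.ncard := by omega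
    obtain ⟨g, hg⟩ := nonempty_of_ncard_ne_zero h2.ne'
    exact ⟨g, hg⟩
  choose s hs using hback
  let step : V → V := fun v => ⟨(v.1.1 - 1, s v), (hs v).1⟩
  let w : ℕ → V := fun n => step^[n] ⟨(0, e), he⟩
  have hw : ∀ n, w (n + 1) = step (w n) := fun n => Function.iterate_succ_apply' _ _ _
  have hlev : ∀ n : ℕ, (w n).1.1 = -(n : ZMod k) := by
    intro n
    induction n with
    | zero => simp [w]
    | succ n ih => rw [hw]; simp only [step]; rw [ih]; push_cast; ring
  -- the middle element
  have hk2 : -(((k - 2 : ℕ) : ZMod k)) = 1 + 1 := by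
    rw [Nat.cast_sub (by omega : 2 ≤ k)]
    simp only [CharP.cast_eq_zero, Nat.cast_ofNat, zero_sub, neg_neg]
    norm_num
  have hg := (w (k - 2)).2
  rw [hlev, hk2] at hg
  have hin := h.indeg hr hδ hk hg
  have hmid : ({f | Arc M K D 0 e f} ∩ {f | Arc M K D 1 f (w (k - 2)).1.2}).Nonempty := by
    by_contra hcon
    rw [not_nonempty_iff_eq_empty] at hcon
    have hs1 : {f | Arc M K D 0 e f} ⊆ D 1 := by
      intro f hf
      have := hf.2.1
      rwa [zero_add] at this
    have hs2 : {f | Arc M K D 1 f (w (k - 2)).1.2} ⊆ D 1 := fun f hf => hf.1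
    have h1 := ncard_union_eq (disjoint_iff_inter_eq_empty.2 hcon) ((h.fin 1).subset hs1)
      ((h.fin 1).subset hs2)
    have h2 := ncard_le_ncard (union_subset hs1 hs2) (h.fin 1)
    rw [h1, h.card] at h2
    omega
  obtain ⟨f, hf1, hf2⟩ := hmid
  refine mk_walk (fun i : ℤ => if i ≤ 0 then (w (-i).toNat).1.2 else f) (2 - k) k (by omega)
    (by simp) ?_ ?_
  · intro i hi1 hi2
    have hi0 : i ≤ 0 := by omega
    simp only [hi0, if_true]
    rcases Int.lt_or_eq_of_le hi0 with hlt | rfl
    · have hi1' : i + 1 ≤ 0 := by omega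
      simp only [hi1', if_true]
      obtain ⟨u, hu⟩ := Int.eq_ofNat_of_zero_le (by omega : 0 ≤ -(i + 1))
      have h1 : (-i).toNat = u + 1 := by omega
      have h2 : (-(i + 1)).toNat = u := by omega
      rw [h1, h2, hw]
      have h3 := hs (w u)
      rw [hlev] at h3
      have h4 : -(u : ZMod k) - 1 = (i : ZMod k) := by
        have : i = -(u : ℤ) - 1 := by omega
        rw [this]
        push_cast
        ring
      rw [h4] at h3
      exact h3
    · have h1 : ¬ ((0 : ℤ) + 1 ≤ 0) := by norm_num
      simp only [h1, if_false]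
      have h2 : (w (-(0 : ℤ)).toNat).1.2 = e := rfl
      rw [h2]
      have h3 : Arc M K D 0 e f := hf1
      simpa using h3
  · have h1 : (2 - (k : ℤ) + (k : ℤ) - 1) = 1 := by ring
    rw [h1]
    have h2 : ¬ ((1 : ℤ) ≤ 0) := by norm_num
    have h3 : (2 - (k : ℤ)) ≤ 0 := by omega
    have h4 : (-(2 - (k : ℤ))).toNat = k - 2 := by omega
    simp only [h2, h3, if_true, if_false, h4]
    have h5 : Arc M K D 1 f (w (k - 2)).1.2 := hf2
    simpa using h5

end dense

end Pool.Agent.Helper87.NC
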