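import Pool.Agent.Helper87.NC.Order
import Pool.Agent.Helper87.NC.Short

/-!
# Near-cyclic orderings: the theorems about windows
-/

namespace Pool.Agent.Helper87.NC

open Set

variable {α : Type*} {M : Matroid α}

/-- windows are periodic in the starting index -/
lemma window_mod {n : ℕ} {E : Set α} (σ : Fin n ≃ E) (i l : ℕ) :
    window σ (i % n) l = window σ i l := by
  ext x
  simp only [window, mem_setOf_eq, Nat.mod_add_mod]

lemma window_add_self {n : ℕ} {E : Set α} (σ : Fin n ≃ E) (i l : ℕ) :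
    window σ (i + n) l = window σ i l := by
  rw [← window_mod σ (i + n) l, Nat.add_mod_right, window_mod]

lemma window_mono {n : ℕ} {E : Set α} (σ : Fin n ≃ E) (i : ℕ) {l l' : ℕ} (h : l ≤ l') :
    window σ i l ⊆ window σ i l' := by
  rintro x ⟨j, hj, hn, rfl⟩
  exact ⟨j, by omega, hn, rfl⟩

lemma window_succ_subset {n : ℕ} {E : Set α} (σ : Fin n ≃ E) (i l : ℕ) :
    window σ (i + 1) l ⊆ window σ i (l + 1) := by
  rintro x ⟨j, hj, hn, rfl⟩
  exact ⟨j + 1, by omega, hn, by congr 3; ring⟩

lemma window_subset_ground {n : ℕ} {E : Set α} (σ : Fin n ≃ E) (i l : ℕ) :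
    window σ i l ⊆ E := by
  rintro x ⟨j, hj, hn, rfl⟩
  exact Subtype.coe_prop _

lemma window_ncard {n : ℕ} {E : Set α} (σ : Fin n ≃ E) (i : ℕ) {l : ℕ} (hl : l ≤ n) :
    (window σ i l).ncard = l := by
  rcases Nat.eq_zero_or_pos l with rfl | hl0
  · have : window σ i 0 = ∅ := by
      ext x
      simp [window]
    rw [this, ncard_empty]
  have hn : 0 < n := by omega
  have h1 : window σ i l
      = (fun j : ℕ => (σ ⟨(i + j) % n, Nat.mod_lt _ hn⟩ : α)) '' (Finset.range l : Set ℕ) := by
    ext x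
    constructor
    · rintro ⟨j, hj, _, rfl⟩
      exact ⟨j, by simpa using hj, rfl⟩
    · rintro ⟨j, hj, rfl⟩
      exact ⟨j, by simpa using hj, hn, rfl⟩
  rw [h1, ncard_image_of_injOn, ncard_coe_finset, Finset.card_range]
  intro j hj j' hj' heq
  have h2 := σ.injective (Subtype.ext heq)
  have h3 : (i + j) % n = (i + j') % n := congrArg Fin.val h2
  simp only [Finset.coe_range, mem_Iio] at hj hj'
  have h4 : (i + j) ≡ (i + j') [MOD n] := h3
  have h5 : j ≡ j' [MOD n] := Nat.ModEq.add_left_cancel' i h4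
  have h6 : j % n = j' % n := h5
  rwa [Nat.mod_eq_of_lt (by omega), Nat.mod_eq_of_lt (by omega)] at h6

/-- the state of a partition into bases -/
lemma state_of_bases {k : ℕ} [NeZero k] {r : ℕ} (B : ZMod k → Set α) (hB : ∀ a, M.IsBase (B a))
    (hfin : ∀ a, (B a).Finite) (hcard : ∀ a, (B a).ncard = r)
    (hdisj : ∀ a b, a ≠ b → Disjoint (B a) (B b)) : State M (fun _ => ∅) B r where
  fin := hfin
  finK := fun _ => finite_empty
  card := hcard
  disj := hdisj
  base₁ := fun a => by simpa using hB a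
  base₂ := fun a => by simpa using hB (a + 1)
  dj₁ := fun a => by simp
  dj₂ := fun a => by simp

lemma State.card_add {k : ℕ} {K D : ZMod k → Set α} {n r : ℕ} (h : State M K D n) {B : Set α}
    (hB : M.IsBase B) (hBr : B.ncard = r) (a : ZMod k) : (K a).ncard + n = r := by
  rw [← hBr, ← (h.base₁ a).ncard_eq_ncard_of_isBase hB,
    ncard_union_eq (h.dj₁ a) (h.finK a) (h.fin a), h.card]

/-- **Near-cyclic orderings** with prescribed places of the exceptional windows. -/
theorem exists_near {k : ℕ} [NeZero k] {r δ : ℕ} (hr : 0 < r) (B : ZMod k → Set α)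
    (hB : ∀ a, M.IsBase (B a)) (hfin : ∀ a, (B a).Finite) (hcard : ∀ a, (B a).ncard = r)
    (hdisj : ∀ a b, a ≠ b → Disjoint (B a) (B b)) (hU : ⋃ a, B a = M.E)
    (hδ : ∀ S ⊆ M.E, S.ncard + δ ≤ r → M.Indep S) (β : ℕ → ZMod k) :
    ∃ σ : Fin (k * r) ≃ M.E,
      (∀ q : ℕ, window σ (q * r) r = B q) ∧
      (∀ q t : ℕ, t < r → (t ≤ 1 ∨ 2 * δ + t ≤ r ∨ (q : ZMod k) ≠ β t) →
        M.IsBase (window σ (q * r + t) r)) ∧
      ∀ i, M.eRank ≤ M.eRk (window σ i r) + 1 := by
  have hst := state_of_bases B hB hfin hcard hdisj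
  obtain ⟨X, hX⟩ := exists_chain_first M (2 * δ)
    (fun n K D h hn => h.walk_dense (h.card_add (hB 0) (hcard 0)) hδ hn) r _ B hst hr
    (hst.walk_initial hr) β
  obtain ⟨σ, hwin⟩ := exists_order hst hr hU hX
  have hk : 0 < k := Nat.pos_of_ne_zero (NeZero.ne k)
  refine ⟨σ, ?_, ?_, ?_⟩
  · intro q
    have h1 := hwin q 0 hr
    rw [add_zero] at h1
    rw [h1, hX.zero, hX.zero]
    simp
  · intro q t ht hcase
    rw [hwin q t ht]
    have := hX.base (q : ZMod k) t ht.le (by
      rcases hcase with h1 | h1 | h1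
      · rcases Nat.eq_zero_or_pos t with h2 | h2
        · exact Or.inl h2
        · exact Or.inr (Or.inl (Or.inl (by omega)))
      · exact Or.inr (Or.inl (Or.inr h1))
      · exact Or.inr (Or.inr h1))
    rwa [empty_union] at this
  · intro i
    have h1 := hwin (i / r) (i % r) (Nat.mod_lt _ hr)
    have h2 : i / r * r + i % r = i := Nat.div_add_mod' i r
    rw [h2] at h1
    obtain ⟨S, hS, hSI, hcardS⟩ := hX.near ((i / r : ℕ) : ZMod k) (i % r) (Nat.mod_lt _ hr).le
    rw [empty_union, ← h1] at hS hcardS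
    rw [window_ncard σ i (Nat.le_mul_of_pos_left r hk)] at hcardS
    have hBr : M.eRank = r := by
      rw [← (hB 0).encard_eq_eRank, ← (hfin 0).cast_ncard_eq, hcard]
    have hWfin : (window σ i r).Finite := by
      have hE : M.E.Finite := by
        rw [← hU]
        exact finite_iUnion hfin
      exact hE.subset (window_subset_ground σ i r)
    have hSle : (S.ncard : ℕ∞) ≤ M.eRk (window σ i r) := by
      rw [(hWfin.subset hS).cast_ncard_eq, ← hSI.eRk_eq_encard]
      exact M.eRk_mono hS
    rw [hBr]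
    calc (r : ℕ∞) ≤ ((S.ncard + 1 : ℕ) : ℕ∞) := by exact_mod_cast hcardS
      _ = (S.ncard : ℕ∞) + 1 := by push_cast; rfl
      _ ≤ _ := add_le_add_left hSle 1

/-- **Near-cyclic orderings without two consecutive exceptional windows.** -/
theorem exists_near' {k : ℕ} [NeZero k] {r δ : ℕ} (hr : 0 < r) (B : ZMod k → Set α)
    (hB : ∀ a, M.IsBase (B a)) (hfin : ∀ a, (B a).Finite) (hcard : ∀ a, (B a).ncard = r)
    (hdisj : ∀ a b, a ≠ b → Disjoint (B a) (B b)) (hU : ⋃ a, B a = M.E)
    (hδ : ∀ S ⊆ M.E, S.ncard + δ ≤ r → M.Indep S) :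
    ∃ σ : Fin (k * r) ≃ M.E,
      (∀ q : ℕ, window σ (q * r) r = B q) ∧
      {i : Fin (k * r) | ¬ M.IsBase (window σ i r)}.ncard ≤ min (r - 2) (2 * δ - 1) ∧
      (∀ i, M.IsBase (window σ i r) ∨ M.IsBase (window σ (i + 1) r)) ∧
      (∀ i, M.Indep (window σ i (r - 1))) ∧
      (∀ i, M.Spanning (window σ i (r + 1))) := by
  have hk : 0 < k := Nat.pos_of_ne_zero (NeZero.ne k)
  obtain ⟨σ, h1, h2, -⟩ := exists_near hr B hB hfin hcard hdisj hU hδ
    (fun t => -(t : ZMod k) - 1)
  -- the bad windows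
  have hbad' : ∀ i, ¬ M.IsBase (window σ i r) →
      2 ≤ i % r ∧ r < 2 * δ + i % r ∧ ((i / r : ℕ) : ZMod k) = -((i % r : ℕ) : ZMod k) - 1 := by
    intro i hi
    by_contra hcon
    apply hi
    have h3 := h2 (i / r) (i % r) (Nat.mod_lt _ hr) (by
      by_contra hcon'
      push Not at hcon'
      exact hcon ⟨by omega, hcon'.2.1, hcon'.2.2⟩)
    rwa [Nat.div_add_mod' i r] at h3
  have hbad : ∀ i, ¬ M.IsBase (window σ i r) →
      i % r ≠ 0 ∧ ((i / r : ℕ) : ZMod k) = -((i % r : ℕ) : ZMod k) - 1 := by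
    intro i hi
    obtain ⟨h3, -, h4⟩ := hbad' i hi
    exact ⟨by omega, h4⟩
  have hcons : ∀ i, M.IsBase (window σ i r) ∨ M.IsBase (window σ (i + 1) r) := by
    intro i
    by_contra hcon
    push Not at hcon
    obtain ⟨hc1, hc2⟩ := hcon
    obtain ⟨hi0, hi1⟩ := hbad i hc1
    obtain ⟨hj0, hj1⟩ := hbad (i + 1) hc2
    have hmod : (i + 1) % r = i % r + 1 := by
      rcases Nat.lt_or_ge (i % r + 1) r with hlt | hge
      · rw [Nat.add_mod, Nat.mod_eq_of_lt (by omega : 1 < r), Nat.mod_eq_of_lt hlt]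
      · exfalso
        apply hj0
        have : i % r + 1 = r := le_antisymm (Nat.mod_lt _ hr) hge
        have h4 : i + 1 = r * (i / r + 1) := by
          have := Nat.div_add_mod i r
          rw [mul_add, mul_one]
          omega
        rw [h4, Nat.mul_mod_right]
    have hdiv : (i + 1) / r = i / r := by
      have h5 := Nat.div_add_mod i r
      have h6 := Nat.div_add_mod (i + 1) r
      rw [hmod] at h6
      have h7 : r * ((i + 1) / r) = r * (i / r) := by omega
      exact Nat.eq_of_mul_eq_mul_left hr h7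
    rw [hmod, hdiv, hi1] at hj1
    push_cast at hj1
    -- `1 = 0` in `ZMod k`, so `k = 1`
    have h8 : (1 : ZMod k) = 0 := by linear_combination hj1
    have hk1 : k = 1 := by
      by_contra hk1
      haveI : Fact (1 < k) := ⟨by omega⟩
      exact one_ne_zero h8
    subst hk1
    -- there is one base only, all windows are equal to it
    apply hc1
    have h9 : window σ i r = M.E := by
      have hEfin : M.E.Finite := by
        rw [← hU]
        exact finite_iUnion hfin
      refine eq_of_subset_of_ncard_le (window_subset_ground σ i r) ?_ hEfin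
      rw [window_ncard σ i (by omega)]
      have : M.E.ncard = 1 * r := by
        have h10 := Nat.card_congr σ
        rw [Nat.card_fin] at h10
        exact h10.symm
      omega
    rw [h9]
    have h10 : window σ (0 * r) r = B ((0 : ℕ) : ZMod 1) := h1 0
    have h11 : window σ (0 * r) r = M.E := by
      have hEfin : M.E.Finite := by
        rw [← hU]
        exact finite_iUnion hfin
      refine eq_of_subset_of_ncard_le (window_subset_ground σ _ r) ?_ hEfin
      rw [window_ncard σ _ (by omega)]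
      have : M.E.ncard = 1 * r := by
        have h10 := Nat.card_congr σ
        rw [Nat.card_fin] at h10
        exact h10.symm
      omega
    rw [← h11, h10]
    exact hB _
  have hNr : 0 < k * r := Nat.mul_pos hk hr
  refine ⟨σ, h1, ?_, hcons, ?_, ?_⟩
  · -- at most one bad window for every residue `t ≠ 0` modulo `r`
    have hmaps : ∀ i : Fin (k * r), i ∈ {i : Fin (k * r) | ¬ M.IsBase (window σ i r)} →
        (i : ℕ) % r ∈ ((Finset.Ico (max 2 (r + 1 - 2 * δ)) r : Finset ℕ) : Set ℕ) := by
      intro i hi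
      obtain ⟨h4, h5, -⟩ := hbad' i hi
      have h3 := Nat.mod_lt (i : ℕ) hr
      simp only [Finset.coe_Ico, mem_Ico]
      omega
    have hinj : InjOn (fun i : Fin (k * r) => (i : ℕ) % r)
        {i : Fin (k * r) | ¬ M.IsBase (window σ i r)} := by
      intro i hi j hj hij
      have hi1 := (hbad i hi).2
      have hj1 := (hbad j hj).2
      have hij' : (i : ℕ) % r = (j : ℕ) % r := hij
      rw [hij', ← hj1] at hi1
      have hi' : (i : ℕ) / r < k := (Nat.div_lt_iff_lt_mul hr).2 i.2
      have hj' : (j : ℕ) / r < k := (Nat.div_lt_iff_lt_mul hr).2 j.2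
      have h4 := congrArg ZMod.val hi1
      rw [ZMod.val_natCast_of_lt hi', ZMod.val_natCast_of_lt hj'] at h4
      apply Fin.ext
      rw [← Nat.div_add_mod (i : ℕ) r, ← Nat.div_add_mod (j : ℕ) r, h4, hij']
    have h3 := ncard_le_ncard_of_injOn (fun i : Fin (k * r) => (i : ℕ) % r) hmaps hinj
      (Finset.finite_toSet _)
    rw [ncard_coe_finset, Nat.card_Ico] at h3
    omega
  · intro i
    rcases hcons (i + (k * r - 1)) with h3 | h3
    · refine h3.indep.subset ?_
      rintro x ⟨j, hj, hn, rfl⟩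
      refine ⟨j + 1, by omega, hn, ?_⟩
      congr 3
      have h4 : i + (k * r - 1) + (j + 1) = i + j + k * r := by omega
      rw [h4, Nat.add_mod_right]
    · have h4 : i + (k * r - 1) + 1 = i + k * r := by omega
      rw [h4, window_add_self] at h3
      exact h3.indep.subset (window_mono σ i (by omega))
  · intro i
    rcases hcons i with h3 | h3
    · exact h3.spanning.superset (window_mono σ i (by omega)) (window_subset_ground σ i _)
    · exact h3.spanning.superset (window_succ_subset σ i r) (window_subset_ground σ i _)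

end Pool.Agent.Helper87.NC
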