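import Pool.Agent.Helper87.NC.Core

/-!
# Shortest closed walks
-/

namespace Pool.Agent.Helper87.NC

open Set

variable {α : Type*} {M : Matroid α} {k : ℕ} {K D : ZMod k → Set α} {n : ℕ}

/-- a shortest closed walk -/
structure IsMin (M : Matroid α) (K D : ZMod k → Set α) (m : ℕ) (c : ℤ → α) : Prop
    extends IsWalk M K D m c where
  pos : 0 < m
  min : ∀ m' < m, 0 < m' → ¬ ∃ c', IsWalk M K D m' c'

lemma State.exists_min [NeZero k] (h : State M K D n) (hn : 0 < n) :
    ∃ m c, IsMin M K D m c := by
  classical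
  have hex : ∃ m, 0 < m ∧ ∃ c, IsWalk M K D m c := h.exists_walk hn
  obtain ⟨hm, c, hc⟩ := Nat.find_spec hex
  refine ⟨Nat.find hex, c, hc, hm, ?_⟩
  intro m' hm' hpos hcon
  exact Nat.find_min hex hm' ⟨hpos, hcon⟩

variable {m : ℕ} {c : ℤ → α}

lemma IsMin.no_chord (h : State M K D n) (hc : IsMin M K D m c) {i j : ℤ} (hij : i < j)
    (hjm : j ≤ i + m) (harc : Arc M K D (i : ZMod k) (c i) (c j)) : j = i + 1 := by
  by_contra hne
  have hj : i + 2 ≤ j := by omega
  have hm0 := hc.toIsWalk.cast_eq h
  have hlev : ((j : ℤ) : ZMod k) = (i : ZMod k) + 1 := h.level_eq (hc.mem j) harc.2.1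
  obtain ⟨m', hm'⟩ := Int.eq_ofNat_of_zero_le (by omega : 0 ≤ i + m - j + 1)
  refine hc.min m' (by omega) (by omega) (mk_walk c j m' (by omega) ?_ ?_ ?_)
  · have : ((m' : ℤ) : ZMod k) = 0 := by
      rw [← hm']
      push_cast
      rw [hlev, hm0]
      ring
    simpa using this
  · intro i' _ _
    exact hc.arc i'
  · have h1 : j + (m' : ℤ) - 1 = i + m := by omega
    rw [h1, hc.per]
    push_cast
    rw [hm0, add_zero]
    exact harc

lemma IsMin.inj (h : State M K D n) (hc : IsMin M K D m c) {i j : ℤ} (hij : i < j)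
    (hjm : j < i + m) : c i ≠ c j := by
  intro heq
  have hlev : ((i : ℤ) : ZMod k) = (j : ZMod k) :=
    h.level_eq (hc.mem i) (by rw [heq]; exact hc.mem j)
  obtain ⟨m', hm'⟩ := Int.eq_ofNat_of_zero_le (by omega : 0 ≤ j - i)
  refine hc.min m' (by omega) (by omega) (mk_walk c i m' (by omega) ?_ ?_ ?_)
  · have : ((m' : ℤ) : ZMod k) = 0 := by
      rw [← hm']
      push_cast
      rw [hlev]
      ring
    simpa using this
  · intro i' _ _
    exact hc.arc i'
  · have h1 : i + (m' : ℤ) - 1 = j - 1 := by omega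
    rw [h1, heq]
    have h2 := hc.arc (j - 1)
    rwa [sub_add_cancel] at h2

lemma IsMin.inj' (h : State M K D n) (hc : IsMin M K D m c) {i j : ℤ} (hij : |i - j| < m)
    (heq : c i = c j) : i = j := by
  rw [abs_lt] at hij
  rcases lt_trichotomy i j with hlt | heq' | hgt
  · exact absurd heq (hc.inj h hlt (by omega))
  · exact heq'
  · exact absurd heq.symm (hc.inj h hgt (by omega))

/-- every element of the walk has an index in a given window -/
lemma IsMin.exists_index (hc : IsMin M K D m c) (i s : ℤ) :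
    ∃ i' : ℤ, s ≤ i' ∧ i' < s + m ∧ c i' = c i := by
  have hm0 : (0 : ℤ) < m := by exact_mod_cast hc.pos
  refine ⟨s + (i - s) % m, ?_, ?_, ?_⟩
  · have := Int.emod_nonneg (i - s) hm0.ne'
    omega
  · have := Int.emod_lt_of_pos (i - s) hm0
    omega
  · have hper : ∀ (q : ℤ) (x : ℤ), c (x + m * q) = c x := by
      intro q
      induction q using Int.induction_on with
      | zero => intro x; simp
      | succ q ih =>
        intro x
        have : x + (m : ℤ) * (q + 1) = (x + m * q) + m := by ring
        rw [this, hc.per, ih]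
      | pred q ih =>
        intro x
        have h1 := hc.per (x + (m : ℤ) * (-q - 1))
        have : x + (m : ℤ) * (-q - 1) + m = x + m * (-q) := by ring
        rw [this] at h1
        rw [← h1, ih]
    have h1 := Int.emod_add_mul_ediv (i - s) m
    have h2 : i = (s + (i - s) % m) + m * ((i - s) / m) := by linarith
    conv_rhs => rw [h2]
    rw [hper]

/-- modulo `K a` and the elements of `D a` outside the walk, consecutive elements are parallel -/
lemma IsMin.mem_closure (h : State M K D n) (hc : IsMin M K D m c) (i : ℤ) :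
    c (i + 1) ∈ M.closure (insert (c i) (K (i : ZMod k) ∪ (D (i : ZMod k) \ range c))) := by
  set a : ZMod k := (i : ZMod k) with ha
  have hB := h.base₁ a
  -- the elements of the walk in `D a` other than `c i`
  let T : Set α := {e | e ∈ D a ∧ e ∈ range c ∧ e ≠ c i}
  have hci : c i ∈ D a := hc.mem i
  have hkey : ∀ e ∈ T, c (i + 1) ∈ M.closure ((K a ∪ D a) \ {e}) := by
    rintro e ⟨heD, ⟨i0, rfl⟩, hne⟩
    obtain ⟨i', h1, h2, h3⟩ := hc.exists_index i0 (i - m + 1)
    rw [← h3] at heD hne ⊢
    have hlev : ((i' : ℤ) : ZMod k) = a := h.level_eq (hc.mem i') heD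
    rw [h.sdiff_eq heD]
    by_contra hcon
    have harc : Arc M K D ((i' : ℤ) : ZMod k) (c i') (c (i + 1)) := by
      rw [hlev]
      exact ⟨heD, (hc.arc i).2.1, hcon⟩
    have := hc.no_chord h (by omega) (by omega) harc
    have h4 : i' = i := by omega
    exact hne (by rw [h4])
  by_cases hT : T.Nonempty
  · have hI := hB.indep
    have hne : Nonempty T := hT.to_subtype
    have h1 := hI.closure_iInter_eq_biInter_closure_of_forall_subset
      (Js := fun e : T => (K a ∪ D a) \ {(e : α)}) (fun e => diff_subset)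
    have h2 : c (i + 1) ∈ M.closure (⋂ e : T, (K a ∪ D a) \ {(e : α)}) := by
      rw [h1]
      exact mem_iInter.2 fun e => hkey e e.2
    refine M.closure_subset_closure ?_ h2
    intro x hx
    rw [mem_iInter] at hx
    obtain ⟨e0, he0⟩ := hT
    have hx0 := (hx ⟨e0, he0⟩).1
    by_cases hxi : x = c i
    · exact Or.inl hxi
    · right
      rcases hx0 with hxK | hxD
      · exact Or.inl hxK
      · refine Or.inr ⟨hxD, fun hr => ?_⟩
        exact (hx ⟨x, hxD, hr, hxi⟩).2 rfl
  · rw [not_nonempty_iff_eq_empty] at hT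
    have hsub : K a ∪ D a ⊆ insert (c i) (K a ∪ (D a \ range c)) := by
      rintro x (hxK | hxD)
      · exact Or.inr (Or.inl hxK)
      · by_cases hxi : x = c i
        · exact Or.inl hxi
        · refine Or.inr (Or.inr ⟨hxD, fun hr => ?_⟩)
          have : x ∈ T := ⟨hxD, hr, hxi⟩
          rw [hT] at this
          exact this
    refine M.closure_subset_closure hsub ?_
    rw [hB.closure_eq]
    exact (h.base₂ a).subset_ground (Or.inr (hc.arc i).2.1)

lemma IsMin.mem_closure' (h : State M K D n) (hc : IsMin M K D m c) (i : ℤ) :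
    c i ∈ M.closure (insert (c (i + 1)) (K (i : ZMod k) ∪ (D (i : ZMod k) \ range c))) := by
  refine M.mem_closure_insert ?_ (hc.mem_closure h i)
  intro hcon
  refine (hc.arc i).2.2 (M.closure_subset_closure ?_ hcon)
  apply union_subset_union_right
  intro x hx
  exact ⟨hx.1, fun hxi => hx.2 ⟨i, by rw [mem_singleton_iff] at hxi; exact hxi.symm⟩⟩

/-- a spanning set which is not larger than a basis is a basis -/
lemma isBase_of_subset_closure {B S : Set α} (hB : M.IsBase B) (hBf : B.Finite) (hSf : S.Finite)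
    (hSE : S ⊆ M.E) (hsub : B ⊆ M.closure S) (hcard : S.ncard ≤ B.ncard) : M.IsBase S := by
  have hsp : M.Spanning S := by
    rw [Matroid.spanning_iff_closure_eq hSE]
    refine subset_antisymm (M.closure_subset_ground _) ?_
    rw [← hB.closure_eq]
    exact M.closure_subset_closure_of_subset_closure hsub
  obtain ⟨B', hB', hB'S⟩ := hsp.exists_isBase_subset
  have h1 : B'.ncard = B.ncard := hB'.ncard_eq_ncard_of_isBase hB
  have h2 : B' = S := eq_of_subset_of_ncard_le hB'S (by omega) hSf
  rwa [← h2]

/-- shifting a set of elements of level `a` along the walk gives a basis again -/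
lemma IsMin.isBase_shift (h : State M K D n) (hc : IsMin M K D m c) {a : ZMod k} (I : Finset ℤ)
    (hI : ∀ i ∈ I, ((i : ℤ) : ZMod k) = a) (hw : ∀ i ∈ I, ∀ j ∈ I, |i - j| < (m : ℤ)) :
    M.IsBase (K a ∪ (D a \ c '' I) ∪ (fun i => c (i + 1)) '' I) := by
  have hB := h.base₁ a
  have hBE := hB.subset_ground
  have hfin : (K a ∪ D a).Finite := (h.finK a).union (h.fin a)
  have hYE : (fun i => c (i + 1)) '' (I : Set ℤ) ⊆ M.E := by
    rintro _ ⟨i, hi, rfl⟩
    have := (hc.arc i).2.1
    rw [hI i hi] at this
    exact (h.base₂ a).subset_ground (Or.inr this)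
  have hSE : K a ∪ (D a \ c '' I) ∪ (fun i => c (i + 1)) '' I ⊆ M.E := by
    refine union_subset (union_subset ?_ ?_) hYE
    · exact subset_union_left.trans hBE
    · exact diff_subset.trans (subset_union_right.trans hBE)
  refine isBase_of_subset_closure hB hfin ?_ hSE ?_ ?_
  · exact (((h.finK a).union ((h.fin a).subset diff_subset))).union (I.finite_toSet.image _)
  · rintro x (hxK | hxD)
    · exact M.subset_closure _ hSE (Or.inl (Or.inl hxK))
    · by_cases hx : x ∈ c '' (I : Set ℤ)
      · obtain ⟨i, hi, rfl⟩ := hx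
        have h1 := hc.mem_closure' h i
        rw [hI i hi] at h1
        refine M.closure_subset_closure ?_ h1
        rintro y (rfl | hyK | hyD)
        · exact Or.inr ⟨i, hi, rfl⟩
        · exact Or.inl (Or.inl hyK)
        · exact Or.inl (Or.inr ⟨hyD.1, fun hy => hyD.2 (image_subset_range _ _ hy)⟩)
      · exact M.subset_closure _ hSE (Or.inl (Or.inr ⟨hxD, hx⟩))
  · have hXsub : c '' (I : Set ℤ) ⊆ D a := by
      rintro _ ⟨i, hi, rfl⟩
      rw [← hI i hi]
      exact hc.mem i
    have hXc : (c '' (I : Set ℤ)).ncard = I.card := by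
      rw [ncard_image_of_injOn, ncard_coe_finset]
      intro i hi j hj hij
      exact hc.inj' h (hw i hi j hj) hij
    have hYc : ((fun i => c (i + 1)) '' (I : Set ℤ)).ncard ≤ I.card := by
      refine (ncard_image_le I.finite_toSet).trans ?_
      rw [ncard_coe_finset]
    have h1 := ncard_union_le (K a ∪ (D a \ c '' I)) ((fun i => c (i + 1)) '' (I : Set ℤ))
    have h2 := ncard_union_le (K a) (D a \ c '' (I : Set ℤ))
    have h3 : (D a \ c '' (I : Set ℤ)).ncard = (D a).ncard - (c '' (I : Set ℤ)).ncard :=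
      ncard_diff hXsub (I.finite_toSet.image _)
    have h4 : (c '' (I : Set ℤ)).ncard ≤ (D a).ncard := ncard_le_ncard hXsub (h.fin a)
    have h5 : (K a ∪ D a).ncard = (K a).ncard + (D a).ncard :=
      ncard_union_eq (h.dj₁ a) (h.finK a) (h.fin a)
    omega

end Pool.Agent.Helper87.NC
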