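import Pool.Agent.Helper87.NC.Chain

/-!
# From chains to cyclic orderings
-/

namespace Pool.Agent.Helper87.NC

open Set

variable {α : Type*} {M : Matroid α} {k : ℕ} {K D : ZMod k → Set α} {n : ℕ}

/-- the set of the elements of a cyclic ordering `σ` with the indices `i, …, i + l - 1`, taken
modulo `n` -/
def window {n : ℕ} {E : Set α} (σ : Fin n ≃ E) (i l : ℕ) : Set α :=
  {x | ∃ j < l, ∃ h : 0 < n, x = σ ⟨(i + j) % n, Nat.mod_lt _ h⟩}

section enum

variable {Ex : ℕ → Prop} {β : ℕ → ZMod k} {X : ZMod k → ℕ → Set α}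

/-- the elements in the order in which they enter the chain -/
lemma Chain.exists_enum (h : State M K D n) (hn : 0 < n) (hX : Chain M K D n Ex β X) :
    ∃ b : ZMod k → ℕ → α, (∀ a t, t < n → b a t ∉ X a t ∧ insert (b a t) (X a t) = X a (t + 1)) := by
  have key : ∀ a t, ∃ x, t < n → x ∉ X a t ∧ insert x (X a t) = X a (t + 1) := by
    intro a t
    by_cases ht : t < n
    · have hfin : (X a t).Finite := (h.fin a).subset (hX.subset a ht.le)
      obtain ⟨x, hx, hx'⟩ := (exists_eq_insert_iff_ncard hfin).2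
        ⟨hX.mono a t ht, by rw [hX.card a t ht.le, hX.card a (t + 1) ht]⟩
      exact ⟨x, fun _ => ⟨hx, hx'⟩⟩
    · have hne : (D a).Nonempty := by
        rw [← ncard_pos (h.fin a), h.card]
        exact hn
      obtain ⟨x, _⟩ := hne
      exact ⟨x, fun h' => absurd h' ht⟩
  choose b hb using key
  exact ⟨b, hb⟩

variable {b : ZMod k → ℕ → α}

lemma enum_image (hX : Chain M K D n Ex β X)
    (hb : ∀ a t, t < n → b a t ∉ X a t ∧ insert (b a t) (X a t) = X a (t + 1)) (a : ZMod k) {t : ℕ}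
    (ht : t ≤ n) : X a t = {x | ∃ u < t, x = b a u} := by
  induction t with
  | zero =>
    rw [hX.zero]
    ext x
    simp
  | succ t ih =>
    rw [← (hb a t ht).2, ih (by omega)]
    ext x
    simp only [mem_insert_iff, mem_setOf_eq]
    constructor
    · rintro (rfl | ⟨u, hu, rfl⟩)
      · exact ⟨t, by omega, rfl⟩
      · exact ⟨u, by omega, rfl⟩
    · rintro ⟨u, hu, rfl⟩
      rcases Nat.lt_succ_iff_lt_or_eq.1 hu with h1 | rfl
      · exact Or.inr ⟨u, h1, rfl⟩
      · exact Or.inl rfl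

lemma enum_mem (hX : Chain M K D n Ex β X)
    (hb : ∀ a t, t < n → b a t ∉ X a t ∧ insert (b a t) (X a t) = X a (t + 1)) (a : ZMod k) {t : ℕ}
    (ht : t < n) : b a t ∈ D a := by
  rw [← hX.full, enum_image hX hb a le_rfl]
  exact ⟨t, ht, rfl⟩

lemma enum_ne (hX : Chain M K D n Ex β X)
    (hb : ∀ a t, t < n → b a t ∉ X a t ∧ insert (b a t) (X a t) = X a (t + 1)) (a : ZMod k)
    {t u : ℕ} (htu : t < u) (hu : u < n) : b a t ≠ b a u := by
  intro heq
  refine (hb a u hu).1 ?_
  rw [enum_image hX hb a hu.le]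
  exact ⟨t, htu, heq.symm⟩

lemma enum_inj (h : State M K D n) (hX : Chain M K D n Ex β X)
    (hb : ∀ a t, t < n → b a t ∉ X a t ∧ insert (b a t) (X a t) = X a (t + 1)) {a a' : ZMod k}
    {t u : ℕ} (ht : t < n) (hu : u < n) (heq : b a t = b a' u) : a = a' ∧ t = u := by
  have ha : a = a' := h.level_eq (enum_mem hX hb a ht) (by rw [heq]; exact enum_mem hX hb a' hu)
  subst ha
  refine ⟨rfl, ?_⟩
  rcases lt_trichotomy t u with h1 | h1 | h1
  · exact absurd heq (enum_ne hX hb a h1 hu)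
  · exact h1
  · exact absurd heq.symm (enum_ne hX hb a h1 ht)

lemma enum_rest (hX : Chain M K D n Ex β X)
    (hb : ∀ a t, t < n → b a t ∉ X a t ∧ insert (b a t) (X a t) = X a (t + 1)) (a : ZMod k) {t : ℕ}
    (ht : t ≤ n) : D a \ X a t = {x | ∃ u, t ≤ u ∧ u < n ∧ x = b a u} := by
  rw [← hX.full, enum_image hX hb a ht, enum_image hX hb a le_rfl]
  ext x
  simp only [mem_diff, mem_setOf_eq]
  constructor
  · rintro ⟨⟨u, hu, rfl⟩, h2⟩
    refine ⟨u, ?_, hu, rfl⟩
    by_contra hcon
    exact h2 ⟨u, by omega, rfl⟩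
  · rintro ⟨u, h1, h2, rfl⟩
    refine ⟨⟨u, h2, rfl⟩, ?_⟩
    rintro ⟨v, hv, heq⟩
    exact enum_ne hX hb a (by omega : v < u) h2 heq.symm

end enum

/-- **Cyclic orderings from chains.** -/
theorem exists_order [NeZero k] {K : ZMod k → Set α} (h : State M K D n) (hn : 0 < n)
    (hU : ⋃ a, D a = M.E) {Ex : ℕ → Prop} {β : ℕ → ZMod k} {X : ZMod k → ℕ → Set α}
    (hX : Chain M K D n Ex β X) :
    ∃ σ : Fin (k * n) ≃ M.E, ∀ q t : ℕ, t < n → window σ (q * n + t) n
        = (D (q : ZMod k) \ X (q : ZMod k) t) ∪ X ((q : ZMod k) + 1) t := by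
  obtain ⟨b, hb⟩ := hX.exists_enum h hn
  have hk : 0 < k := Nat.pos_of_ne_zero (NeZero.ne k)
  have hkn : 0 < k * n := Nat.mul_pos hk hn
  let g : ℕ → α := fun i => b ((i / n : ℕ) : ZMod k) (i % n)
  have hgE : ∀ i, g i ∈ M.E := by
    intro i
    rw [← hU]
    exact mem_iUnion.2 ⟨_, enum_mem hX hb _ (Nat.mod_lt _ hn)⟩
  have hgper : ∀ i, g (i % (k * n)) = g i := by
    intro i
    have h1 : i = i % (k * n) + k * n * (i / (k * n)) := (Nat.mod_add_div _ _).symm
    show b ((i % (k * n) / n : ℕ) : ZMod k) (i % (k * n) % n) = b ((i / n : ℕ) : ZMod k) (i % n)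
    have h2 : i % (k * n) % n = i % n := Nat.mod_mul_left_mod i k n
    have h3 : i / n = i % (k * n) / n + k * (i / (k * n)) := by
      have h4 : i / n = (i % (k * n) + n * (k * (i / (k * n)))) / n := by
        congr 1
        calc i = i % (k * n) + k * n * (i / (k * n)) := h1
          _ = _ := by ring
      rw [h4, Nat.add_mul_div_left _ _ hn]
    rw [h2, h3]
    push_cast
    simp
  have hginj : ∀ i j, i < k * n → j < k * n → g i = g j → i = j := by
    intro i j hi hj hij
    obtain ⟨h1, h2⟩ := enum_inj h hX hb (Nat.mod_lt _ hn) (Nat.mod_lt _ hn) hij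
    have hi' : i / n < k := Nat.div_lt_of_lt_mul (by rwa [mul_comm] at hi)
    have hj' : j / n < k := Nat.div_lt_of_lt_mul (by rwa [mul_comm] at hj)
    have h3 : i / n = j / n := by
      have h4 := congrArg ZMod.val h1
      rwa [ZMod.val_natCast_of_lt hi', ZMod.val_natCast_of_lt hj'] at h4
    rw [← Nat.div_add_mod i n, ← Nat.div_add_mod j n, h2, h3]
  have hgsurj : ∀ x ∈ M.E, ∃ i < k * n, g i = x := by
    intro x hx
    rw [← hU] at hx
    obtain ⟨a, ha⟩ := mem_iUnion.1 hx
    rw [← hX.full a, enum_image hX hb a le_rfl] at ha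
    obtain ⟨u, hu, rfl⟩ := ha
    have hval : a.val < k := ZMod.val_lt a
    refine ⟨a.val * n + u, ?_, ?_⟩
    · calc a.val * n + u < a.val * n + n := by omega
        _ = (a.val + 1) * n := by ring
        _ ≤ k * n := Nat.mul_le_mul_right _ hval
    · show b (((a.val * n + u) / n : ℕ) : ZMod k) ((a.val * n + u) % n) = b a u
      have h1 : (a.val * n + u) / n = a.val := by
        rw [Nat.mul_comm, Nat.mul_add_div hn, Nat.div_eq_of_lt hu, add_zero]
      have h2 : (a.val * n + u) % n = u := by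
        rw [Nat.mul_comm, Nat.mul_add_mod, Nat.mod_eq_of_lt hu]
      rw [h1, h2, ZMod.natCast_zmod_val]
  have hbij : Function.Bijective (fun i : Fin (k * n) => (⟨g i, hgE i⟩ : M.E)) := by
    constructor
    · intro i j hij
      exact Fin.ext (hginj i j i.2 j.2 (congrArg Subtype.val hij))
    · rintro ⟨x, hx⟩
      obtain ⟨i, hi, hgi⟩ := hgsurj x hx
      exact ⟨⟨i, hi⟩, Subtype.ext hgi⟩
  refine ⟨Equiv.ofBijective _ hbij, ?_⟩
  intro q t ht
  have hwin : window (Equiv.ofBijective _ hbij) (q * n + t) n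
      = {x | ∃ j < n, x = g (q * n + t + j)} := by
    ext x
    constructor
    · rintro ⟨j, hj, _, rfl⟩
      exact ⟨j, hj, hgper _⟩
    · rintro ⟨j, hj, rfl⟩
      exact ⟨j, hj, hkn, (hgper _).symm⟩
  rw [hwin, enum_rest hX hb _ ht.le, enum_image hX hb _ ht.le]
  have hg1 : ∀ u, u < n → g (q * n + u) = b (q : ZMod k) u := by
    intro u hu
    show b (((q * n + u) / n : ℕ) : ZMod k) ((q * n + u) % n) = _
    have h1 : (q * n + u) / n = q := by
      rw [Nat.mul_comm, Nat.mul_add_div hn, Nat.div_eq_of_lt hu, add_zero]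
    have h2 : (q * n + u) % n = u := by
      rw [Nat.mul_comm, Nat.mul_add_mod, Nat.mod_eq_of_lt hu]
    rw [h1, h2]
  ext x
  simp only [mem_setOf_eq, mem_union]
  constructor
  · rintro ⟨j, hj, rfl⟩
    rcases lt_or_ge (t + j) n with h1 | h1
    · left
      exact ⟨t + j, by omega, h1, by rw [add_assoc, hg1 _ h1]⟩
    · right
      refine ⟨t + j - n, by omega, ?_⟩
      have h2 : q * n + t + j = (q + 1) * n + (t + j - n) := by
        rw [add_mul, one_mul]; omega
      rw [h2]
      show b ((((q + 1) * n + (t + j - n)) / n : ℕ) : ZMod k)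
        (((q + 1) * n + (t + j - n)) % n) = _
      have h3 : ((q + 1) * n + (t + j - n)) / n = q + 1 := by
        rw [Nat.mul_comm (q + 1) n, Nat.mul_add_div hn, Nat.div_eq_of_lt (by omega), add_zero]
      have h4 : ((q + 1) * n + (t + j - n)) % n = t + j - n := by
        rw [Nat.mul_comm (q + 1) n, Nat.mul_add_mod, Nat.mod_eq_of_lt (by omega)]
      rw [h3, h4]
      push_cast
      rfl
  · rintro (⟨u, h1, h2, rfl⟩ | ⟨u, hu, rfl⟩)
    · refine ⟨u - t, by omega, ?_⟩
      have h3 : q * n + t + (u - t) = q * n + u := by omega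
      rw [h3, hg1 u h2]
    · refine ⟨n - t + u, by omega, ?_⟩
      have h3 : q * n + t + (n - t + u) = (q + 1) * n + u := by
        rw [add_mul, one_mul]; omega
      rw [h3]
      show _ = b ((((q + 1) * n + u) / n : ℕ) : ZMod k) (((q + 1) * n + u) % n)
      have h4 : ((q + 1) * n + u) / n = q + 1 := by
        rw [Nat.mul_comm (q + 1) n, Nat.mul_add_div hn, Nat.div_eq_of_lt (by omega), add_zero]
      have h5 : ((q + 1) * n + u) % n = u := by
        rw [Nat.mul_comm (q + 1) n, Nat.mul_add_mod, Nat.mod_eq_of_lt (by omega)]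
      rw [h4, h5]
      push_cast
      rfl

end Pool.Agent.Helper87.NC
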